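import Pool.Agent.Q266.FW8

/-!
# The prefix palindromic length of the Fibonacci word

`sub true = [true, false]`, `sub false = [true]` is the Fibonacci morphism (`true` is the letter
`a`, `false` the letter `b`), `W k` is its `k`-th iterate applied to `a`, `fw` is the infinite
Fibonacci word (indexed from `0`), `pf n` is its prefix of length `n`, and `PPL n` is the least
number of palindromes (non-empty words equal to their reversal) whose concatenation is `pf n`.
-/

namespace Pool.Agent.Results.MP_3353e5_co.Lambda

open Pool.Agent.Q266.FW Filter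

/-- `limsup PPL(n) / ln n = 1 / (3 ln φ)` with `φ` the golden ratio. The last two parts record that
`fw` begins with every `W k` and is fixed by the morphism. -/
theorem result :
    limsup (fun n : ℕ => (PPL n : ℝ) / Real.log n) atTop = 1 / (3 * Real.log Real.goldenRatio) ∧
    0 < 1 / (3 * Real.log Real.goldenRatio) ∧
    (∀ n : ℕ, 1 ≤ n → (PPL n : ℝ) ≤ 1 / (3 * Real.log Real.goldenRatio) * Real.log n + 1102) ∧
    (∀ N : ℕ, ∃ n : ℕ, N ≤ n ∧
      1 / (3 * Real.log Real.goldenRatio) * Real.log n - 7 ≤ PPL n) ∧
    (∀ k : ℕ, pf (W k).length = W k) ∧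
    (∀ n : ℕ, (pf n).length = n ∧ (pf n).flatMap sub = pf ((pf n).flatMap sub).length) := by
  have hg : (Pool.Agent.Q266.FP.gr : ℝ) = Real.goldenRatio := rfl
  refine ⟨?_, ?_, ?_, ?_, ?_, ?_⟩
  · rw [← hg]
    refine limsup_log (C := 1102) (by norm_num) (fun n => Nat.cast_nonneg _) upper_log ?_
    intro N
    obtain ⟨n, h1, h2⟩ := lower_log N
    exact ⟨n, h1, by linarith⟩
  · rw [← hg]
    have := log_gr_pos
    positivity
  · rw [← hg]; exact upper_log
  · rw [← hg]; exact lower_log
  · intro k
    rw [pf_eq_take (k := k) (le_refl _), List.take_length]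
  · intro n
    exact ⟨length_pf n, pf_flatMap n⟩

end Pool.Agent.Results.MP_3353e5_co.Lambda
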